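import Mathlib

/-!
MP_efe010_an.  The recurrence x_{n+1} = (alpha + x_{n-2}) / (A + x_n).

For every A in [9/10, 1) and alpha = A (which lies in (0, alpha_+(A))) every solution with
nonnegative initial values converges to the equilibrium, which is 1.  So Q1 is false.
-/

namespace Pool.Agent.Results.MP_efe010_an.GlobalConvergence

open Filter Topology

/-- `x` is a solution with nonnegative initial values; it is indexed so that
`x 0, x 1, x 2` are the initial values `x_{-2}, x_{-1}, x_0`. -/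
def IsSol (α A : ℝ) (x : ℕ → ℝ) : Prop :=
  0 ≤ x 0 ∧ 0 ≤ x 1 ∧ 0 ≤ x 2 ∧ ∀ n, x (n + 3) = (α + x n) / (A + x (n + 2))

/-- The nonnegative equilibrium. -/
noncomputable def xbar (α A : ℝ) : ℝ := (1 - A + Real.sqrt ((1 - A) ^ 2 + 4 * α)) / 2

/-- The number `alpha_+(A)`. -/
noncomputable def alphaPlus (A : ℝ) : ℝ := (2 - A + Real.sqrt (5 * A ^ 2 - 4 * A ^ 3)) / 2

/-- `x` converges to a periodic solution. -/
def ConvergesToPeriodic (α A : ℝ) (x : ℕ → ℝ) : Prop :=
  ∃ p : ℕ → ℝ, IsSol α A p ∧ (∃ T : ℕ, 1 ≤ T ∧ ∀ n, p (n + T) = p n) ∧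
    Tendsto (fun n => x n - p n) atTop (𝓝 0)

/-- The assertion Q1 of the problem. -/
def Q1 : Prop :=
  ∀ A : ℝ, 0 < A → A < 1 → ∀ α : ℝ, 0 < α → α < alphaPlus A →
    ∃ x : ℕ → ℝ, IsSol α A x ∧ ¬ Tendsto x atTop (𝓝 (xbar α A)) ∧
      ¬ ConvergesToPeriodic α A x

/-- One step of the boundedness argument. -/
theorem bound_step (a : ℝ) (ha : 9 / 10 ≤ a) (ha1 : a ≤ 1) (M U T Q R P Y X W : ℝ) (hM : 10 ≤ M)
    (hU : U ≤ M) (hT0 : a ≤ T) (hQ0 : a ≤ Q) (hR0 : a ≤ R) (hP0 : a ≤ P)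
    (hP : P ≤ M)
    (h1 : Q = a + U / T) (h2 : P = a + T / R) (h3 : Y = a + Q / P)
    (h4 : X = a + R / Y) (h5 : W = a + P / X) : W ≤ M := by
  have hTp : 0 < T := by linarith
  have hRp : 0 < R := by linarith
  have hPp : 0 < P := by linarith
  have hQp : 0 < Q := by linarith
  have hY : Y * P = a * P + Q := by rw [h3]; field_simp
  have hYp : 0 < Y := by rw [h3]; have := div_pos hQp hPp; linarith
  have hX : X * Y = a * Y + R := by rw [h4]; field_simp
  have hXp : 0 < X := by rw [h4]; have := div_pos hRp hYp; linarith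
  have h1' : (Q - a) * T = U := by rw [h1]; field_simp; ring
  have h2' : (P - a) * R = T := by rw [h2]; field_simp; ring
  -- (Q - a) (P - a) a ≤ M
  have hQP : (Q - a) * (P - a) * a ≤ M := by
    have : (Q - a) * (P - a) * R = U := by rw [← h1', ← h2']; ring
    have h0 : 0 ≤ (Q - a) * (P - a) := mul_nonneg (by linarith) (by linarith)
    nlinarith
  -- X (aP + Q) ≥ a (aP+Q) + a P
  have hXb : a * (a * P + Q) + a * P ≤ X * (a * P + Q) := by
    have : X * (Y * P) = a * (Y * P) + R * P := by linear_combination P * hX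
    rw [hY] at this
    rw [this]
    have h9 : a * P ≤ R * P := mul_le_mul_of_nonneg_right hR0 hPp.le
    linarith
  -- key inequality
  have key : P * (a * P + Q) ≤ (M - a) * (a * (a * P + Q) + a * P) := by
    by_cases hc : P ≤ a * (M - a)
    · have h1 : P * (a * P + Q) ≤ a * (M - a) * (a * P + Q) :=
        mul_le_mul_of_nonneg_right hc (by positivity)
      have h2 : 0 ≤ (M - a) * (a * P) := mul_nonneg (by linarith) (by positivity)
      nlinarith
    · push Not at hc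
      -- P - a ≥ a M - a^2 - a ≥ 7
      have hPa : a * M - 2 ≤ P - a := by nlinarith
      have hQ2 : Q ≤ 13 / 5 := by
        by_contra hq
        push Not at hq
        have e1 : (8 / 5 : ℝ) ≤ Q - a := by linarith
        have e2 : (0:ℝ) ≤ a * M - 2 := by nlinarith
        have e3 : (8 / 5 : ℝ) * (a * M - 2) < (Q - a) * (P - a) := by
          have : (8 / 5 : ℝ) < Q - a := by linarith
          have h7 : (0:ℝ) < a * M - 2 := by nlinarith
          calc (8 / 5 : ℝ) * (a * M - 2) < (Q - a) * (a * M - 2) :=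
                mul_lt_mul_of_pos_right this h7
            _ ≤ (Q - a) * (P - a) := mul_le_mul_of_nonneg_left hPa (by linarith)
        have e4 : (8 / 5 : ℝ) * (a * M - 2) * a < M := by nlinarith
        nlinarith
      have f1 : P - (1 + a) * (M - a) ≤ - (a * M) + 2 := by nlinarith
      have f2 : a * P * (P - (1 + a) * (M - a)) ≤ a * P * (- (a * M) + 2) :=
        mul_le_mul_of_nonneg_left f1 (by positivity)
      have f3 : a * P * (- (a * M) + 2) ≤ (a * (a * (M - a))) * (- (a * M) + 2) := by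
        have : a * (a * (M - a)) ≤ a * P := by nlinarith
        have h7 : (- (a * M) + 2) ≤ 0 := by nlinarith
        exact mul_le_mul_of_nonpos_right this h7
      have f4 : Q * (P - a * (M - a)) ≤ 13 / 5 * (M / 10 + 1) := by
        have : P - a * (M - a) ≤ M / 10 + 1 := by nlinarith
        have h8 : 0 ≤ P - a * (M - a) := by linarith
        calc Q * (P - a * (M - a)) ≤ 13 / 5 * (P - a * (M - a)) :=
              mul_le_mul_of_nonneg_right hQ2 h8
          _ ≤ _ := by linarith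
      have f5 : (a * (a * (M - a))) * (- (a * M) + 2) ≤ (81 / 100 * (M - 1)) * (- (9 / 10 * M) + 2) := by
        have s1 : 81 / 100 ≤ a * a := by nlinarith
        have g1 : 81 / 100 * (M - 1) ≤ a * (a * (M - a)) := by
          calc 81 / 100 * (M - 1) ≤ (a * a) * (M - a) :=
                mul_le_mul s1 (by linarith) (by linarith) (by positivity)
            _ = _ := by ring
        have g2 : 9 / 10 * M ≤ a * M := by nlinarith
        have g3 : 0 ≤ 81 / 100 * (M - 1) := by linarith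
        have g4 : 0 ≤ 9 / 10 * M - 2 := by linarith
        have := mul_le_mul g1 (show 9 / 10 * M - 2 ≤ a * M - 2 by linarith) g4 (by linarith)
        nlinarith
      have f6 : (81 / 100 * (M - 1)) * (- (9 / 10 * M) + 2) + 13 / 5 * (M / 10 + 1) ≤ 0 := by
        nlinarith
      nlinarith
  -- conclude
  have hfin : P ≤ (M - a) * X := by
    have hs : 0 < a * P + Q := by positivity
    have : P * (a * P + Q) ≤ ((M - a) * X) * (a * P + Q) := by
      calc P * (a * P + Q) ≤ (M - a) * (a * (a * P + Q) + a * P) := key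
        _ ≤ (M - a) * (X * (a * P + Q)) := mul_le_mul_of_nonneg_left hXb (by linarith)
        _ = _ := by ring
    exact le_of_mul_le_mul_right this hs
  rw [h5]
  have : P / X ≤ M - a := by rw [div_le_iff₀ hXp]; exact hfin
  linarith

/-- Boundedness. -/
theorem bounded (a : ℝ) (ha : 9 / 10 ≤ a) (ha1 : a ≤ 1) (z : ℕ → ℝ) (hz : ∀ n, a ≤ z n)
    (hrec : ∀ n, z (n + 3) = a + z n / z (n + 2)) : ∃ M, ∀ n, z n ≤ M := by
  obtain ⟨M, hM, hin⟩ : ∃ M : ℝ, 10 ≤ M ∧ ∀ n, n < 8 → z n ≤ M := by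
    refine ⟨10 + ∑ i ∈ Finset.range 8, z i, ?_, ?_⟩
    · have : 0 ≤ ∑ i ∈ Finset.range 8, z i :=
        Finset.sum_nonneg (fun i _ => by have := hz i; linarith)
      linarith
    · intro n hn
      have : z n ≤ ∑ i ∈ Finset.range 8, z i :=
        Finset.single_le_sum (f := z) (fun i _ => by have := hz i; linarith)
          (Finset.mem_range.mpr hn)
      linarith
  refine ⟨M, fun n => ?_⟩
  induction n using Nat.strong_induction_on with
  | _ n ih =>
    by_cases hn : n < 8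
    · exact hin n hn
    · obtain ⟨k, rfl⟩ : ∃ k, n = k + 8 := ⟨n - 8, by omega⟩
      exact bound_step a ha ha1 M (z k) (z (k + 2)) (z (k + 3)) (z (k + 4)) (z (k + 5))
        (z (k + 6)) (z (k + 7)) (z (k + 8)) hM (ih k (by omega)) (hz _) (hz _) (hz _) (hz _)
        (ih (k + 5) (by omega)) (hrec k) (hrec (k + 2)) (hrec (k + 3)) (hrec (k + 4))
        (hrec (k + 5))

/-- The algebraic heart: a full limiting orbit through the upper limit `S`. -/
theorem upper_le (a : ℝ) (ha : 9 / 10 ≤ a) (ha1 : a ≤ 1) (I S Z1 Z2 Z3 Z4 Z5 : ℝ)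
    (hI : a ≤ I) (hIS : I ≤ S)
    (hlow : a * S + I ≤ I * S)
    (h1 : I ≤ Z1) (h2 : I ≤ Z2) (h3S : Z3 ≤ S) (h4 : I ≤ Z4) (h5S : Z5 ≤ S)
    (e1 : S * Z1 = a * Z1 + Z3) (e2 : Z1 * Z2 = a * Z2 + Z4)
    (e3 : Z2 * Z3 = a * Z3 + Z5) : S ≤ 1 + a := by
  by_contra hcon
  push Not at hcon
  have hIp : 0 < I := by linarith
  have hSa : 0 < S - a := by linarith
  have hS1 : 0 < S - 1 := by linarith
  -- D = S - a S + a^2 > 0
  have hD : 0 < S - a * S + a ^ 2 := by nlinarith
  -- I (S - 1) ≥ a S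
  have hI1 : a * S ≤ I * (S - 1) := by nlinarith
  -- Z1 (S - a) ≤ S
  have g1 : Z1 * (S - a) ≤ S := by nlinarith
  -- (Z1 - a) (S - a) ≤ D
  have g2 : (Z1 - a) * (S - a) ≤ S - a * S + a ^ 2 := by nlinarith
  have g3 : (Z1 - a) * Z2 = Z4 := by linarith
  -- Z2 * D ≥ I (S - a)
  have hZ2p : 0 < Z2 := by linarith
  have g4 : I * (S - a) ≤ Z2 * (S - a * S + a ^ 2) := by
    calc I * (S - a) ≤ Z4 * (S - a) := mul_le_mul_of_nonneg_right h4 hSa.le
      _ = Z2 * ((Z1 - a) * (S - a)) := by rw [← g3]; ring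
      _ ≤ Z2 * (S - a * S + a ^ 2) := mul_le_mul_of_nonneg_left g2 hZ2p.le
  -- N > 0
  set N := a * S ^ 2 + (1 - 2 * a - a ^ 2) * S + a ^ 2 with hN
  have hNp : 0 < N := by
    have e : N = a * (S - 1) ^ 2 + (1 - a) * ((1 + a) * (S - 1) + 1) := by rw [hN]; ring
    rw [e]
    have : 0 < a * (S - 1) ^ 2 := by positivity
    have : 0 ≤ (1 - a) * ((1 + a) * (S - 1) + 1) :=
      mul_nonneg (by linarith) (by positivity)
    linarith
  -- (Z2 - a) D (S-1) ≥ a N
  have g5 : a * N ≤ (Z2 - a) * (S - a * S + a ^ 2) * (S - 1) := by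
    have : I * (S - a) * (S - 1) ≤ Z2 * (S - a * S + a ^ 2) * (S - 1) :=
      mul_le_mul_of_nonneg_right g4 hS1.le
    have h' : a * S * (S - a) ≤ I * (S - a) * (S - 1) := by
      have := mul_le_mul_of_nonneg_right hI1 hSa.le
      nlinarith
    have : a * N = a * S * (S - a) - a * (S - a * S + a ^ 2) * (S - 1) := by rw [hN]; ring
    nlinarith
  have hZ2a : 0 < Z2 - a := by
    have h0 : 0 < (Z2 - a) * ((S - a * S + a ^ 2) * (S - 1)) := by
      have : 0 < a * N := by positivity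
      nlinarith
    exact (pos_iff_pos_of_mul_pos h0).mpr (by positivity)
  -- Z3 ≥ (S - a) I
  have g6 : (S - a) * I ≤ Z3 := by
    have : (S - a) * Z1 = Z3 := by linarith
    rw [← this]
    exact mul_le_mul_of_nonneg_left h1 hSa.le
  have g7 : Z3 * (Z2 - a) ≤ S := by nlinarith
  have g8 : (S - a) * I * (Z2 - a) ≤ S :=
    le_trans (mul_le_mul_of_nonneg_right g6 hZ2a.le) g7
  -- multiply by (S-1) and D (S-1)
  have g9 : (S - a) * (a * S) * (a * N) ≤ S * ((S - a * S + a ^ 2) * (S - 1)) * (S - 1) := by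
    calc (S - a) * (a * S) * (a * N) ≤ (S - a) * (I * (S - 1)) * (a * N) := by
          apply mul_le_mul_of_nonneg_right _ (by positivity)
          exact mul_le_mul_of_nonneg_left hI1 hSa.le
      _ ≤ (S - a) * (I * (S - 1)) * ((Z2 - a) * (S - a * S + a ^ 2) * (S - 1)) := by
          apply mul_le_mul_of_nonneg_left g5
          positivity
      _ = ((S - a) * I * (Z2 - a)) * ((S - a * S + a ^ 2) * (S - 1) * (S - 1)) := by ring
      _ ≤ S * ((S - a * S + a ^ 2) * (S - 1) * (S - 1)) := by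
          apply mul_le_mul_of_nonneg_right g8
          positivity
      _ = _ := by ring
  have hSp : 0 < S := by linarith
  have g10 : a ^ 2 * (S - a) * N ≤ (S - a * S + a ^ 2) * (S - 1) ^ 2 := by
    have : S * (a ^ 2 * (S - a) * N) ≤ S * ((S - a * S + a ^ 2) * (S - 1) ^ 2) := by
      nlinarith [g9]
    exact le_of_mul_le_mul_left this hSp
  have fac : a ^ 2 * (S - a) * N - (S - a * S + a ^ 2) * (S - 1) ^ 2
      = (S - 1 - a) * ((a ^ 3 + a - 1) * S ^ 2 + (1 - 2 * a + a ^ 2 - a ^ 3 - a ^ 4) * S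
        + a ^ 2 * (a ^ 2 - a + 1)) := by
    rw [hN]; ring
  have hq : 0 < (a ^ 3 + a - 1) * S ^ 2 + (1 - 2 * a + a ^ 2 - a ^ 3 - a ^ 4) * S
        + a ^ 2 * (a ^ 2 - a + 1) := by
    have e : (a ^ 3 + a - 1) * S ^ 2 + (1 - 2 * a + a ^ 2 - a ^ 3 - a ^ 4) * S
        + a ^ 2 * (a ^ 2 - a + 1)
        = (a ^ 3 + a - 1) * (S - 1 - a) ^ 2
          + (2 * (1 + a) * (a ^ 3 + a - 1) + (1 - 2 * a + a ^ 2 - a ^ 3 - a ^ 4)) * (S - 1 - a)
          + a * (a ^ 3 + a ^ 2 + a - 2) := by ring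
    rw [e]
    have a2 : 81 / 100 ≤ a ^ 2 := by nlinarith
    have a3 : 729 / 1000 ≤ a ^ 3 := by nlinarith
    have a4 : a ^ 4 ≤ 1 := pow_le_one₀ (by linarith) ha1
    have a3' : a ^ 3 ≤ 1 := pow_le_one₀ (by linarith) ha1
    have c1 : 0 ≤ (a ^ 3 + a - 1) * (S - 1 - a) ^ 2 := mul_nonneg (by linarith) (sq_nonneg _)
    have c2 : 0 ≤ 2 * (1 + a) * (a ^ 3 + a - 1) + (1 - 2 * a + a ^ 2 - a ^ 3 - a ^ 4) := by
      nlinarith
    have c3 : 0 < a * (a ^ 3 + a ^ 2 + a - 2) := mul_pos (by linarith) (by linarith)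
    have c4 : 0 ≤ (2 * (1 + a) * (a ^ 3 + a - 1) + (1 - 2 * a + a ^ 2 - a ^ 3 - a ^ 4)) * (S - 1 - a) :=
      mul_nonneg c2 (by linarith)
    linarith
  have := mul_pos (show 0 < S - 1 - a by linarith) hq
  linarith

/-- If all shifts are along an ultrafilter, bounded sequences converge. -/
theorem ultra_lim (U : Ultrafilter ℕ) (f : ℕ → ℝ) (c C : ℝ) (h : ∀ n, c ≤ f n ∧ f n ≤ C) :
    ∃ L, Tendsto f U (𝓝 L) := by
  have hc : IsCompact (Set.Icc c C) := isCompact_Icc
  have hle : ((U.map f : Ultrafilter ℝ) : Filter ℝ) ≤ 𝓟 (Set.Icc c C) := by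
    rw [le_principal_iff]
    change f ⁻¹' (Set.Icc c C) ∈ (U : Filter ℕ)
    exact Filter.mem_of_superset Filter.univ_mem (fun n _ => h n)
  obtain ⟨L, _, hL⟩ := hc.ultrafilter_le_nhds _ hle
  exact ⟨L, hL⟩

theorem extract (z : ℕ → ℝ) (S I : ℝ) (c C : ℝ) (hb : ∀ n, c ≤ z n ∧ z n ≤ C)
    (hS : limsup z atTop = S) (hI : liminf z atTop = I)
    (T : ℝ) (hT : ∀ ε > 0, ∃ᶠ n in atTop, |z n - T| < ε) :
    ∃ Z : ℕ → ℝ, ∃ U : Ultrafilter ℕ, ∃ φ : ℕ → ℕ, (∀ j, Tendsto (fun k => z (φ k + j)) U (𝓝 (Z j)))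
      ∧ Z 5 = T ∧ ∀ j, I ≤ Z j ∧ Z j ≤ S := by
  have hbu : IsBoundedUnder (· ≤ ·) atTop z := isBoundedUnder_of ⟨C, fun n => (hb n).2⟩
  have hbl : IsBoundedUnder (· ≥ ·) atTop z := isBoundedUnder_of ⟨c, fun n => (hb n).1⟩
  -- choose indices
  have hch : ∀ k : ℕ, ∃ n : ℕ, k ≤ n ∧ |z (n + 5) - T| < 1 / (k + 1 : ℝ) := by
    intro k
    have := hT (1 / (k + 1 : ℝ)) (by positivity)
    rw [frequently_atTop] at this
    obtain ⟨m, hm, hm2⟩ := this (k + 5)
    exact ⟨m - 5, by omega, by rw [show m - 5 + 5 = m by omega]; exact hm2⟩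
  choose φ hφ hφ2 using hch
  have hφt : Tendsto φ atTop atTop := tendsto_atTop_mono hφ tendsto_id
  let U : Ultrafilter ℕ := Ultrafilter.of atTop
  have hU : (U : Filter ℕ) ≤ atTop := Ultrafilter.of_le atTop
  have hlim : ∀ j, ∃ L, Tendsto (fun k => z (φ k + j)) U (𝓝 L) :=
    fun j => ultra_lim U _ c C (fun n => hb _)
  choose Z hZ using hlim
  refine ⟨Z, U, φ, hZ, ?_, ?_⟩
  · have h1 : Tendsto (fun k => z (φ k + 5)) atTop (𝓝 T) := by
      rw [tendsto_iff_dist_tendsto_zero]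
      refine squeeze_zero (fun _ => dist_nonneg) (fun k => ?_) tendsto_one_div_add_atTop_nhds_zero_nat
      rw [Real.dist_eq]
      exact (hφ2 k).le
    exact tendsto_nhds_unique (hZ 5) (h1.mono_left hU)
  · intro j
    have hj : Tendsto (fun k => φ k + j) atTop atTop := tendsto_atTop_mono (fun k => Nat.le_add_right _ _) hφt
    constructor
    · by_contra hcon
      push Not at hcon
      obtain ⟨m, hm1, hm2⟩ := exists_between hcon
      have h1 : ∀ᶠ n in atTop, m < z n := by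
        apply Filter.eventually_lt_of_lt_liminf _ hbl
        rw [hI]; exact hm2
      have h2 : ∀ᶠ k in (U : Filter ℕ), m ≤ z (φ k + j) :=
        hU ((hj.eventually h1).mono (fun _ h => h.le))
      exact absurd (ge_of_tendsto (hZ j) h2) (by linarith)
    · by_contra hcon
      push Not at hcon
      obtain ⟨m, hm1, hm2⟩ := exists_between hcon
      have h1 : ∀ᶠ n in atTop, z n < m := by
        apply Filter.eventually_lt_of_limsup_lt _ hbu
        rw [hS]; exact hm1
      have h2 : ∀ᶠ k in (U : Filter ℕ), z (φ k + j) ≤ m :=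
        hU ((hj.eventually h1).mono (fun _ h => h.le))
      exact absurd (le_of_tendsto (hZ j) h2) (by linarith)

theorem freq_limsup (z : ℕ → ℝ) (c C : ℝ) (hb : ∀ n, c ≤ z n ∧ z n ≤ C) :
    ∀ ε > 0, ∃ᶠ n in atTop, |z n - limsup z atTop| < ε := by
  intro ε hε
  have hbu : IsBoundedUnder (· ≤ ·) atTop z := isBoundedUnder_of ⟨C, fun n => (hb n).2⟩
  have hbl : IsBoundedUnder (· ≥ ·) atTop z := isBoundedUnder_of ⟨c, fun n => (hb n).1⟩
  have h1 : ∃ᶠ n in atTop, limsup z atTop - ε < z n :=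
    Filter.frequently_lt_of_lt_limsup hbl.isCoboundedUnder_le (by linarith)
  have h2 : ∀ᶠ n in atTop, z n < limsup z atTop + ε :=
    Filter.eventually_lt_of_limsup_lt (by linarith) hbu
  refine (h1.and_eventually h2).mono (fun n hn => ?_)
  rw [abs_lt]; constructor <;> linarith [hn.1, hn.2]

theorem freq_liminf (z : ℕ → ℝ) (c C : ℝ) (hb : ∀ n, c ≤ z n ∧ z n ≤ C) :
    ∀ ε > 0, ∃ᶠ n in atTop, |z n - liminf z atTop| < ε := by
  intro ε hε
  have hbu : IsBoundedUnder (· ≤ ·) atTop z := isBoundedUnder_of ⟨C, fun n => (hb n).2⟩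
  have hbl : IsBoundedUnder (· ≥ ·) atTop z := isBoundedUnder_of ⟨c, fun n => (hb n).1⟩
  have h1 : ∃ᶠ n in atTop, z n < liminf z atTop + ε :=
    Filter.frequently_lt_of_liminf_lt hbu.isCoboundedUnder_ge (by linarith)
  have h2 : ∀ᶠ n in atTop, liminf z atTop - ε < z n :=
    Filter.eventually_lt_of_lt_liminf (by linarith) hbl
  refine (h1.and_eventually h2).mono (fun n hn => ?_)
  rw [abs_lt]; constructor <;> linarith [hn.1, hn.2]

theorem z_tendsto (a : ℝ) (ha : 9 / 10 ≤ a) (ha1 : a ≤ 1) (z : ℕ → ℝ) (hz : ∀ n, a ≤ z n)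
    (hrec : ∀ n, z (n + 3) = a + z n / z (n + 2)) : Tendsto z atTop (𝓝 (1 + a)) := by
  obtain ⟨C, hC⟩ := bounded a ha ha1 z hz hrec
  have hb : ∀ n, a ≤ z n ∧ z n ≤ C := fun n => ⟨hz n, hC n⟩
  have hbu : IsBoundedUnder (· ≤ ·) atTop z := isBoundedUnder_of ⟨C, fun n => (hb n).2⟩
  have hbl : IsBoundedUnder (· ≥ ·) atTop z := isBoundedUnder_of ⟨a, fun n => (hb n).1⟩
  obtain ⟨S, hS⟩ : ∃ S, limsup z atTop = S := ⟨_, rfl⟩
  obtain ⟨I, hI⟩ : ∃ I, liminf z atTop = I := ⟨_, rfl⟩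
  have hIS : I ≤ S := by rw [← hI, ← hS]; exact liminf_le_limsup hbu hbl
  have haI : a ≤ I := by
    rw [← hI]
    exact le_liminf_of_le hbu.isCoboundedUnder_ge (Eventually.of_forall hz)
  have hrec' : ∀ n, z (n + 3) * z (n + 2) = a * z (n + 2) + z n := by
    intro n
    have : 0 < z (n + 2) := by have := hz (n + 2); linarith
    rw [hrec n]; field_simp
  -- limit relations along an ultrafilter
  have rel : ∀ (Z : ℕ → ℝ) (U : Ultrafilter ℕ) (φ : ℕ → ℕ),
      (∀ j, Tendsto (fun k => z (φ k + j)) U (𝓝 (Z j))) →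
      ∀ j, Z (j + 3) * Z (j + 2) = a * Z (j + 2) + Z j := by
    intro Z U φ hZ j
    have h1 := (hZ (j + 3)).mul (hZ (j + 2))
    have h2 := ((hZ (j + 2)).const_mul a).add (hZ j)
    refine tendsto_nhds_unique h1 (h2.congr (fun k => ?_))
    have := hrec' (φ k + j)
    rw [show φ k + j + 3 = φ k + (j + 3) by ring, show φ k + j + 2 = φ k + (j + 2) by ring] at this
    linarith
  -- lower relation
  have hlow : a * S + I ≤ I * S := by
    obtain ⟨Z, U, φ, hZ, hZ5, hZb⟩ := extract z S I a C hb hS hI I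
      (by rw [← hI]; exact freq_liminf z a C hb)
    have r := rel Z U φ hZ 2
    simp only [show 2 + 3 = 5 from rfl, show 2 + 2 = 4 from rfl, hZ5] at r
    have h4 := hZb 4
    have h2 := hZb 2
    -- I * Z4 = a Z4 + Z2, (I - a) Z4 = Z2 ≥ I; Z4 ≤ S
    have : (I - a) * Z 4 ≤ (I - a) * S := mul_le_mul_of_nonneg_left h4.2 (by linarith)
    nlinarith [h2.1]
  have hup : S ≤ 1 + a := by
    obtain ⟨Z, U, φ, hZ, hZ5, hZb⟩ := extract z S I a C hb hS hI S
      (by rw [← hS]; exact freq_limsup z a C hb)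
    have r2 := rel Z U φ hZ 2
    have r1 := rel Z U φ hZ 1
    have r0 := rel Z U φ hZ 0
    simp only [show 2 + 3 = 5 from rfl, show 2 + 2 = 4 from rfl,
      show 1 + 2 = 3 from rfl, Nat.zero_add, hZ5] at r2 r1 r0
    exact upper_le a ha ha1 I S (Z 4) (Z 3) (Z 2) (Z 1) (Z 0) haI hIS hlow (hZb 4).1 (hZb 3).1
      (hZb 2).2 (hZb 1).1 (hZb 0).2 r2 r1 (by linarith)
  have hlo : 1 + a ≤ I := by
    have hS1 : 1 < S := by
      by_contra h
      push Not at h
      nlinarith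
    by_contra h
    push Not at h
    have : I * (S - 1) < (1 + a) * (S - 1) := mul_lt_mul_of_pos_right h (by linarith)
    nlinarith
  exact tendsto_of_le_liminf_of_limsup_le (by rw [hI]; exact hlo) (by rw [hS]; exact hup) hbu hbl

theorem alphaPlus_gt (a : ℝ) (ha : 9 / 10 ≤ a) (ha1 : a < 1) : a < alphaPlus a := by
  unfold alphaPlus
  have h : 3 * a - 2 < Real.sqrt (5 * a ^ 2 - 4 * a ^ 3) := by
    apply Real.lt_sqrt_of_sq_lt
    have : 5 * a ^ 2 - 4 * a ^ 3 - (3 * a - 2) ^ 2 = 4 * (1 - a) * (a ^ 2 + 2 * a - 1) := by ring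
    have h2 : 0 < 4 * (1 - a) * (a ^ 2 + 2 * a - 1) := by
      apply mul_pos (by linarith)
      nlinarith
    linarith
  linarith

theorem xbar_eq (a : ℝ) (ha : 0 ≤ a) : xbar a a = 1 := by
  unfold xbar
  rw [show (1 - a) ^ 2 + 4 * a = (1 + a) ^ 2 by ring, Real.sqrt_sq (by linarith)]
  ring

theorem sol_tendsto (a : ℝ) (ha : 9 / 10 ≤ a) (ha1 : a < 1) (x : ℕ → ℝ) (hx : IsSol a a x) :
    Tendsto x atTop (𝓝 1) := by
  obtain ⟨h0, h1, h2, hr⟩ := hx
  have hpos : ∀ n, 0 ≤ x n := by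
    intro n
    induction n using Nat.strong_induction_on with
    | _ n ih =>
      match n, ih with
      | 0, _ => exact h0
      | 1, _ => exact h1
      | 2, _ => exact h2
      | k + 3, ih =>
        rw [hr k]
        have e1 := ih k (by omega)
        have e2 := ih (k + 2) (by omega)
        positivity
  have := z_tendsto a ha ha1.le (fun n => a + x n) (fun n => by have := hpos n; linarith) (by
    intro n
    rw [hr n])
  have h3 := this.sub_const a
  simpa using h3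

/-- Q1 is false: for every `A` in `[9/10, 1)` and `alpha = A` one has
`0 < alpha < alpha_+(A)` and every solution with nonnegative initial values converges to the
equilibrium (which equals 1). -/
theorem result : ¬ Q1 ∧
    ∀ a : ℝ, 9 / 10 ≤ a → a < 1 → a < alphaPlus a ∧ xbar a a = 1 ∧
      ∀ x : ℕ → ℝ, IsSol a a x → Tendsto x atTop (𝓝 (xbar a a)) := by
  have h2 : ∀ a : ℝ, 9 / 10 ≤ a → a < 1 → a < alphaPlus a ∧ xbar a a = 1 ∧
      ∀ x : ℕ → ℝ, IsSol a a x → Tendsto x atTop (𝓝 (xbar a a)) := by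
    intro a ha ha1
    refine ⟨alphaPlus_gt a ha ha1, xbar_eq a (by linarith), fun x hx => ?_⟩
    rw [xbar_eq a (by linarith)]
    exact sol_tendsto a ha ha1 x hx
  refine ⟨fun hQ => ?_, h2⟩
  obtain ⟨x, hx, hnx, _⟩ := hQ (9 / 10) (by norm_num) (by norm_num) (9 / 10) (by norm_num)
    (alphaPlus_gt (9 / 10) le_rfl (by norm_num))
  exact hnx ((h2 (9 / 10) le_rfl (by norm_num)).2.2 x hx)

end Pool.Agent.Results.MP_efe010_an.GlobalConvergence
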